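import Pool.Agent.H699.T.DT

/-!
# Combinators for query algorithms
-/

set_option autoImplicit false

namespace Pool.Agent.H512.T.LOC

open Finset Classical Pool.Agent.H699.T

/-- Sequential composition. -/
def bnd {V A O O' : Type} : DT V A O → (O → DT V A O') → DT V A O'
  | .done o, f => f o
  | .ask x y k, f => .ask x y (fun a => bnd (k a) f)

theorem eval_bnd {V A O O' : Type} (d : V → V → A) (f : O → DT V A O') (P : DT V A O) :
    (bnd P f).eval d = (f (P.eval d)).eval d := by
  induction P with
  | done o => rfl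
  | ask x y k ih =>
    simp only [bnd, DT.eval]
    exact ih _

theorem cost_bnd {V A O O' : Type} (d : V → V → A) (f : O → DT V A O') (P : DT V A O) :
    (bnd P f).cost d = P.cost d + (f (P.eval d)).cost d := by
  induction P with
  | done o => simp [bnd, DT.cost, DT.eval]
  | ask x y k ih =>
    simp only [bnd, DT.eval, DT.cost]
    rw [ih]
    omega

theorem mono {V A O : Type} {D D' : Set (V → V → A)} {c c' : ℕ} {f : (V → V → A) → O}
    (h : LocOn D c f) (hs : D' ⊆ D) (hc : c ≤ c') : LocOn D' c' f := by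
  obtain ⟨P, hP⟩ := h
  exact ⟨P, fun d hd => ⟨(hP d (hs hd)).1, (hP d (hs hd)).2.trans hc⟩⟩

theorem bind_rule {V A O O' : Type} {D : Set (V → V → A)} {c c' : ℕ} {g : (V → V → A) → O}
    {f : (V → V → A) → O'} (h : LocOn D c g)
    (h' : ∀ a, LocOn {d | d ∈ D ∧ g d = a} c' f) : LocOn D (c + c') f := by
  obtain ⟨P, hP⟩ := h
  choose Q hQ using h'
  refine ⟨bnd P Q, fun d hd => ?_⟩
  have h1 := hP d hd
  have h2 := hQ (g d) d ⟨hd, rfl⟩
  rw [eval_bnd, cost_bnd, h1.1]
  exact ⟨h2.1, add_le_add h1.2 h2.2⟩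

theorem const_rule {V A O : Type} [Nonempty A] (D : Set (V → V → A)) (f : (V → V → A) → O)
    (h : ∀ d ∈ D, ∀ d' ∈ D, f d = f d') : LocOn D 0 f := by
  by_cases hD : D.Nonempty
  · obtain ⟨d0, hd0⟩ := hD
    exact ⟨.done (f d0), fun d hd => ⟨h d0 hd0 d hd, le_rfl⟩⟩
  · refine ⟨.done (f (fun _ _ => Classical.arbitrary A)), fun d hd => ?_⟩
    exact absurd ⟨d, hd⟩ hD

theorem det_rule {V A O O' : Type} [Nonempty A] {D : Set (V → V → A)} {c : ℕ}
    {g : (V → V → A) → O} {f : (V → V → A) → O'} (h : LocOn D c g)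
    (hf : ∀ d ∈ D, ∀ d' ∈ D, g d = g d' → f d = f d') : LocOn D c f := by
  have := bind_rule (c' := 0) (f := f) h (fun a => const_rule _ _ fun d hd d' hd' =>
    hf d hd.1 d' hd'.1 (hd.2.trans hd'.2.symm))
  simpa using this

theorem query_rule {V A : Type} (D : Set (V → V → A)) (x y : V) :
    LocOn D 1 (fun d => d x y) :=
  ⟨.ask x y .done, fun _ _ => ⟨rfl, le_rfl⟩⟩

theorem row_rule {V A : Type} [Fintype V] [Nonempty A] (D : Set (V → V → A)) (x : V) :
    LocOn D (Fintype.card V) (fun d => d x) := by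
  obtain ⟨a0⟩ := ‹Nonempty A›
  have : Nonempty A := ⟨a0⟩
  have key : ∀ l : List V, LocOn D l.length (fun d y => if y ∈ l then d x y else a0) := by
    intro l
    induction l with
    | nil => exact const_rule _ _ fun d _ d' _ => by simp
    | cons z l ih =>
      rw [List.length_cons]
      refine bind_rule ih fun a => det_rule (query_rule _ x z) ?_
      rintro d ⟨hd, hda⟩ d' ⟨hd', hda'⟩ hz
      funext y
      have h1 : (if y ∈ l then d x y else a0) = if y ∈ l then d' x y else a0 := by
        have := congrFun (hda.trans hda'.symm) y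
        exact this
      by_cases hyz : y = z
      · subst hyz
        simp only [List.mem_cons, true_or, if_true]
        exact hz
      · by_cases hyl : y ∈ l
        · simpa [hyl] using h1
        · simp [hyz, hyl]
  have h := key (univ : Finset V).toList
  rw [Finset.length_toList, Finset.card_univ] at h
  refine det_rule h fun d _ d' _ hdd => ?_
  funext y
  have := congrFun hdd y
  simpa using this

theorem pi_rule {V A O ι : Type} [Nonempty A] [Inhabited O] (D : Set (V → V → A)) (c : ℕ)
    (I : Finset ι) (g : ι → (V → V → A) → O) (h : ∀ i ∈ I, LocOn D c (g i)) :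
    LocOn D (I.card * c) (fun d i => if i ∈ I then g i d else default) := by
  induction I using Finset.induction_on with
  | empty =>
    rw [Finset.card_empty, zero_mul]
    exact const_rule _ _ fun d _ d' _ => by simp
  | insert j I hj ih =>
    rw [Finset.card_insert_of_notMem hj, add_mul, one_mul]
    refine bind_rule (ih fun i hi => h i (Finset.mem_insert_of_mem hi)) fun a =>
      det_rule (mono (h j (Finset.mem_insert_self _ _)) (fun d hd => hd.1) le_rfl) ?_
    rintro d ⟨hd, hda⟩ d' ⟨hd', hda'⟩ hz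
    funext i
    have h1 : (if i ∈ I then g i d else default) = if i ∈ I then g i d' else default :=
      congrFun (hda.trans hda'.symm) i
    by_cases hij : i = j
    · subst hij
      simp only [Finset.mem_insert, true_or, if_true]
      exact hz
    · by_cases hiI : i ∈ I
      · simpa [hiI] using h1
      · simp [hij, hiI]

theorem t_LOCBASIC : S_LOCBASIC := by
  refine ⟨?_, ?_, ?_, ?_, ?_, ?_, ?_⟩
  · intro V A O _ D D' c c' f h hs hc
    exact mono h hs hc
  · intro V A O O' _ D c c' g f h h'
    exact bind_rule h h'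
  · intro V A O O' _ D c g f h hf
    exact det_rule h hf
  · intro V A O _ D f h
    exact const_rule D f h
  · intro V A _ D x y
    exact query_rule D x y
  · intro V A _ _ D x
    exact row_rule D x
  · intro V A O ι _ _ D c I g h
    exact pi_rule D c I g h

theorem t_COMAP : S_COMAP := by
  intro V V' A A' O e g P
  induction P with
  | done o => exact ⟨.done o, fun d => ⟨rfl, rfl⟩⟩
  | ask x y k ih =>
    choose Q hQ using ih
    refine ⟨.ask (e x) (e y) (fun a => Q (g a)), fun d => ?_⟩
    simp only [DT.eval, DT.cost]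
    exact ⟨(hQ (g (d (e x) (e y))) d).1, by rw [(hQ (g (d (e x) (e y))) d).2]⟩

/-- The next query after the answers `h`. -/
def nxt {n : ℕ} : DT (Fin n) ℝ ℝ → List ℝ → ((Fin n × Fin n) ⊕ ℝ)
  | .done r, _ => Sum.inr r
  | .ask x y _, [] => Sum.inl (x, y)
  | .ask _ _ k, a :: h => nxt (k a) h

/-- One step. -/
def stp {n : ℕ} (d : Fin n → Fin n → ℝ) (T : DT (Fin n) ℝ ℝ) (h : List ℝ) : List ℝ :=
  Sum.elim (fun p : Fin n × Fin n => h ++ [d p.1 p.2]) (fun _ : ℝ => h) (nxt T h)

theorem stp_cons {n : ℕ} (d : Fin n → Fin n → ℝ) (x y : Fin n) (k : ℝ → DT (Fin n) ℝ ℝ) (a : ℝ)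
    (h : List ℝ) : stp d (.ask x y k) (a :: h) = a :: stp d (k a) h := by
  unfold stp
  simp only [nxt]
  cases nxt (k a) h with
  | inl p => simp
  | inr r => simp

theorem iter_cons {n : ℕ} (d : Fin n → Fin n → ℝ) (x y : Fin n) (k : ℝ → DT (Fin n) ℝ ℝ) (a : ℝ)
    (q : ℕ) (h : List ℝ) :
    (stp d (.ask x y k))^[q] (a :: h) = a :: (stp d (k a))^[q] h := by
  induction q generalizing h with
  | zero => rfl
  | succ q ih => rw [Function.iterate_succ_apply, Function.iterate_succ_apply, stp_cons, ih]

theorem run {n : ℕ} (d : Fin n → Fin n → ℝ) (T : DT (Fin n) ℝ ℝ) :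
    ∀ q : ℕ, T.cost d ≤ q → nxt T ((stp d T)^[q] []) = Sum.inr (T.eval d) := by
  induction T with
  | done r => intro q _; rfl
  | ask x y k ih =>
    intro q hq
    simp only [DT.cost] at hq
    obtain ⟨q', rfl⟩ : ∃ q', q = q' + 1 := ⟨q - 1, by omega⟩
    have h0 : stp d (.ask x y k) [] = [d x y] := rfl
    rw [Function.iterate_succ_apply, h0, iter_cons]
    simp only [nxt, DT.eval]
    exact ih _ q' (by omega)

theorem t_STEP : S_STEP := by
  intro n m P
  refine ⟨fun s h => nxt (P s) h, fun s d q hq => ?_⟩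
  exact run d (P s) q hq

end Pool.Agent.H512.T.LOC
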